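import Pool.Agent.R559.NP.Near

/-!
# Countable families of points near a given point
-/

set_option autoImplicit false

namespace Pool.Agent.E8helper38.NP

open Filter Topology MeasureTheory

/-! ### Families of points -/

section Families

variable {K X : Type} [MetricSpace X]

/-- the members of `⋃ V B` which are near `ξ` -/
def Close (V : ℝ → Set K) (φ : K → X) (ξ : X) (σ M : ℝ) : Set K :=
  {p | ∃ h : ℝ, p ∈ V (Real.exp h) ∧ dist (φ p) ξ ≤ M * Real.exp (-(σ * h))}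

/-- the number of members -/
def Counted (V : ℝ → Set K) (s : ℝ) : Prop := ∀ δ : ℝ, 0 < δ → ∃ M : ℝ, ∀ B : ℝ, 1 ≤ B →
  (V B).Finite ∧ ((V B).ncard : ℝ) ≤ M * B ^ (s + δ)

/-- the members with index at least one, and their heights -/
theorem model (V : ℝ → Set K) (hmono : ∀ B B' : ℝ, B ≤ B' → V B ⊆ V B') {s : ℝ}
    (hc : Counted V s) :
    ∃ (T : Type) (_ : Countable T) (ι : T → K) (H : T → ℝ), (∀ t, 1 ≤ H t) ∧
      (∀ ε : ℝ, 0 < ε → ∃ C : ℝ, ∀ B : ℝ, 1 ≤ B → {t : T | True ∧ H t ≤ B}.Finite ∧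
        (({t : T | True ∧ H t ≤ B}.ncard : ℕ) : ℝ) ≤ C * B ^ (s + ε)) ∧
      ∀ h : ℝ, 0 ≤ h → ∀ p ∈ V (Real.exp h), ∃ t : T, ι t = p ∧ H t ≤ 2 * Real.exp h := by
  classical
  have hfin : ∀ m : ℕ, (V (m : ℝ)).Finite := by
    intro m
    obtain ⟨M, hM⟩ := hc 1 one_pos
    exact (hM (max (m : ℝ) 1) (le_max_right _ _)).1.subset (hmono _ _ (le_max_left _ _))
  have hcount : {p : K | ∃ m : ℕ, 1 ≤ m ∧ p ∈ V (m : ℝ)}.Countable := by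
    refine (Set.countable_iUnion fun m : ℕ => (hfin m).countable).mono ?_
    rintro p ⟨m, -, hm⟩
    exact Set.mem_iUnion.2 ⟨m, hm⟩
  refine ⟨{p : K // ∃ m : ℕ, 1 ≤ m ∧ p ∈ V (m : ℝ)}, hcount.to_subtype, Subtype.val,
    fun t => (Nat.find t.2 : ℝ), fun t => by
      show (1 : ℝ) ≤ ((Nat.find t.2 : ℕ) : ℝ)
      exact_mod_cast (Nat.find_spec t.2).1, ?_, ?_⟩
  · intro ε hε
    obtain ⟨C, hC⟩ := hc ε hε
    refine ⟨C, fun B hB => ?_⟩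
    obtain ⟨h1, h2⟩ := hC B hB
    have hsub : Subtype.val '' {t : {p : K // ∃ m : ℕ, 1 ≤ m ∧ p ∈ V (m : ℝ)} |
        True ∧ (Nat.find t.2 : ℝ) ≤ B} ⊆ V B := by
      rintro _ ⟨t, ⟨-, ht⟩, rfl⟩
      exact hmono _ _ ht (Nat.find_spec t.2).2
    have hinj : Set.InjOn Subtype.val {t : {p : K // ∃ m : ℕ, 1 ≤ m ∧ p ∈ V (m : ℝ)} |
        True ∧ (Nat.find t.2 : ℝ) ≤ B} := Subtype.val_injective.injOn
    refine ⟨Set.Finite.of_finite_image (h1.subset hsub) hinj, ?_⟩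
    rw [← hinj.ncard_image]
    exact le_trans (by exact_mod_cast Set.ncard_le_ncard hsub h1) h2
  · intro h hh p hp
    have h1 : 1 ≤ Real.exp h := Real.one_le_exp hh
    have h2 : (1 : ℕ) ≤ ⌈Real.exp h⌉₊ := by
      rw [Nat.one_le_ceil_iff]
      exact Real.exp_pos h
    have h3 : p ∈ V ((⌈Real.exp h⌉₊ : ℕ) : ℝ) := hmono _ _ (Nat.le_ceil _) hp
    refine ⟨⟨p, ⌈Real.exp h⌉₊, h2, h3⟩, rfl, ?_⟩
    have h4 : Nat.find (⟨⌈Real.exp h⌉₊, h2, h3⟩ : ∃ m : ℕ, 1 ≤ m ∧ p ∈ V (m : ℝ)) ≤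
        ⌈Real.exp h⌉₊ := Nat.find_min' _ ⟨h2, h3⟩
    have h5 : ((⌈Real.exp h⌉₊ : ℕ) : ℝ) < Real.exp h + 1 := Nat.ceil_lt_add_one (by linarith)
    have h6 : ((Nat.find (⟨⌈Real.exp h⌉₊, h2, h3⟩ : ∃ m : ℕ, 1 ≤ m ∧ p ∈ V (m : ℝ)) : ℕ) : ℝ) ≤
        ((⌈Real.exp h⌉₊ : ℕ) : ℝ) := by exact_mod_cast h4
    show ((Nat.find (⟨⌈Real.exp h⌉₊, h2, h3⟩ : ∃ m : ℕ, 1 ≤ m ∧ p ∈ V (m : ℝ)) : ℕ) : ℝ) ≤
      2 * Real.exp h
    linarith

/-- from the heights of `model` to `Close` -/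
theorem close_finite {V : ℝ → Set K} (hmono : ∀ B B' : ℝ, B ≤ B' → V B ⊆ V B') {s : ℝ}
    (hc : Counted V s) {φ : K → X} {ξ : X} {σ : ℝ} (hσ : 0 < σ) {T : Type} {ι : T → K} {H : T → ℝ}
    (hH : ∀ t, 1 ≤ H t)
    (hι : ∀ h : ℝ, 0 ≤ h → ∀ p ∈ V (Real.exp h), ∃ t : T, ι t = p ∧ H t ≤ 2 * Real.exp h)
    (hf : ∀ A : ℝ, {t | dist (φ (ι t)) ξ ≤ A * H t ^ (-σ) ∧ True}.Finite) (M : ℝ) :
    (Close V φ ξ σ M).Finite := by
  obtain ⟨M₁, hM₁⟩ := hc 1 one_pos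
  have h1 := (hM₁ 1 le_rfl).1
  refine (h1.union ((hf (max M 0 * 2 ^ σ)).image ι)).subset ?_
  rintro p ⟨h, hp, hd⟩
  by_cases hh : 0 ≤ h
  · right
    obtain ⟨t, rfl, ht⟩ := hι h hh p hp
    refine ⟨t, ⟨?_, trivial⟩, rfl⟩
    have hHt := hH t
    have h2 : H t / 2 ≤ Real.exp h := by linarith
    have h3 : Real.exp (-(σ * h)) = Real.exp h ^ (-σ) := by
      rw [← Real.exp_mul]
      congr 1
      ring
    have h4 : Real.exp h ^ (-σ) ≤ (H t / 2) ^ (-σ) :=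
      Real.rpow_le_rpow_of_nonpos (by linarith) h2 (by linarith)
    have h5 : (H t / 2) ^ (-σ) = 2 ^ σ * H t ^ (-σ) := by
      rw [Real.div_rpow (by linarith) (by norm_num), Real.rpow_neg (by norm_num : (0 : ℝ) ≤ 2),
        div_inv_eq_mul, mul_comm]
    calc dist (φ (ι t)) ξ ≤ M * Real.exp (-(σ * h)) := hd
      _ ≤ max M 0 * Real.exp (-(σ * h)) :=
          mul_le_mul_of_nonneg_right (le_max_left _ _) (Real.exp_pos _).le
      _ ≤ max M 0 * (2 ^ σ * H t ^ (-σ)) := by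
          refine mul_le_mul_of_nonneg_left ?_ (le_max_right _ _)
          rw [h3, ← h5]
          exact h4
      _ = max M 0 * 2 ^ σ * H t ^ (-σ) := by ring
  · left
    refine hmono _ _ ?_ hp
    rw [← Real.exp_zero]
    exact Real.exp_le_exp.2 (le_of_lt (not_le.1 hh))

theorem family_dim (V : ℝ → Set K) (hmono : ∀ B B' : ℝ, B ≤ B' → V B ⊆ V B') {s σ : ℝ}
    (hs : 0 ≤ s) (hσ : 0 < σ) (hc : Counted V s) (φ : K → X) :
    ∃ N : Set X, dimH N ≤ ENNReal.ofReal (s / σ) ∧ ∀ ξ : X, ξ ∉ N → ∀ M : ℝ,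
      (Close V φ ξ σ M).Finite := by
  obtain ⟨T, _, ι, H, hH, hcount, hι⟩ := model V hmono hc
  obtain ⟨N, hN, hgood⟩ := Pool.Agent.R559.NP.near_dim (Bad := fun _ : T => True) hH hs hσ hcount
    (fun t => φ (ι t))
  exact ⟨N, hN, fun ξ hξ M => close_finite hmono hc hσ hH hι (hgood ξ hξ) M⟩

theorem family_ae [MeasurableSpace X] (μ : Measure X) {C₀ m : ℝ}
    (hμ : ∀ (x : X) (r : ℝ), 0 < r → μ (Metric.closedBall x r) ≤ ENNReal.ofReal (C₀ * r ^ m))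
    (V : ℝ → Set K) (hmono : ∀ B B' : ℝ, B ≤ B' → V B ⊆ V B') {s σ : ℝ}
    (hs : 0 ≤ s) (hσ : 0 < σ) (hsm : s < σ * m) (hc : Counted V s) (φ : K → X) :
    ∀ᵐ ξ ∂μ, ∀ M : ℝ, (Close V φ ξ σ M).Finite := by
  obtain ⟨T, _, ι, H, hH, hcount, hι⟩ := model V hmono hc
  have h := Pool.Agent.R559.NP.near_ae (Bad := fun _ : T => True) μ hμ hH hs hsm hcount
    (fun t => φ (ι t))
  filter_upwards [h] with ξ hξ M
  exact close_finite hmono hc hσ hH hι hξ M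

end Families

end Pool.Agent.E8helper38.NP
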