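import Pool.Agent.E8helper38.NP.Fam

/-!
# Sparse sets of rational numbers and integers near a given point
-/

set_option autoImplicit false

namespace Pool.Agent.E8helper38.NP

open MeasureTheory

/-- the height of a rational number -/
def ht (t : ℚ) : ℕ := max t.num.natAbs t.den

theorem one_le_ht (t : ℚ) : 1 ≤ ht t := le_trans t.pos (le_max_right _ _)

variable {P : ℂ → Prop}

/-- few rational numbers of each denominator do not have the property `P` -/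
def Count (P : ℂ → Prop) : Prop :=
  ∃ C : ℝ, ∀ B : ℕ, 1 ≤ B → ∀ v : ℕ, 1 ≤ v → v ≤ B →
    ({u : ℤ | |u| ≤ B ∧ IsCoprime u (v : ℤ) ∧ ¬ P ((u : ℂ) / v)}.ncard : ℝ) ≤ C * Real.sqrt B

theorem counted_rat (h : Count P) :
    Counted (fun B : ℝ => {t : ℚ | (ht t : ℝ) ≤ B ∧ ¬ P (t : ℂ)}) (3 / 2) := by
  classical
  obtain ⟨C, hC⟩ := h
  intro δ hδ
  refine ⟨max C 0, fun B hB => ?_⟩
  have hb : 1 ≤ ⌊B⌋₊ := Nat.le_floor (by simpa using hB)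
  have hbB : (⌊B⌋₊ : ℝ) ≤ B := Nat.floor_le (by linarith)
  have hfin : ∀ v : ℕ,
      {u : ℤ | |u| ≤ ⌊B⌋₊ ∧ IsCoprime u (v : ℤ) ∧ ¬ P ((u : ℂ) / v)}.Finite := by
    intro v
    refine (Set.finite_Icc (-(⌊B⌋₊ : ℤ)) ⌊B⌋₊).subset ?_
    rintro u ⟨hu, -⟩
    exact ⟨(abs_le.1 hu).1, (abs_le.1 hu).2⟩
  set T : Finset ℚ := (Finset.Icc 1 ⌊B⌋₊).biUnion
    (fun v => ((hfin v).toFinset).image (fun u : ℤ => (u : ℚ) / v)) with hT
  have hsub : {t : ℚ | (ht t : ℝ) ≤ B ∧ ¬ P (t : ℂ)} ⊆ (T : Set ℚ) := by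
    rintro t ⟨h1, h2⟩
    have h3 : ht t ≤ ⌊B⌋₊ := Nat.le_floor h1
    have h4 : t.den ≤ ⌊B⌋₊ := (le_max_right _ _).trans h3
    have h5 : t.num.natAbs ≤ ⌊B⌋₊ := (le_max_left _ _).trans h3
    rw [Finset.mem_coe, hT, Finset.mem_biUnion]
    refine ⟨t.den, Finset.mem_Icc.2 ⟨t.pos, h4⟩, Finset.mem_image.2 ⟨t.num, ?_, t.num_div_den⟩⟩
    rw [Set.Finite.mem_toFinset]
    refine ⟨?_, ?_, ?_⟩
    · rw [Int.abs_eq_natAbs]
      exact_mod_cast h5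
    · rw [Int.isCoprime_iff_gcd_eq_one]
      exact t.reduced
    · rwa [Rat.cast_def] at h2
  have hcard : (T.card : ℝ) ≤ max C 0 * B ^ (3 / 2 : ℝ) := by
    have h1 : (T.card : ℝ) ≤ ∑ v ∈ Finset.Icc 1 ⌊B⌋₊, (max C 0 * Real.sqrt B) := by
      have h2 : T.card ≤ ∑ v ∈ Finset.Icc 1 ⌊B⌋₊,
          (((hfin v).toFinset).image (fun u : ℤ => (u : ℚ) / v)).card := Finset.card_biUnion_le
      refine le_trans (Nat.cast_le.2 h2) ?_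
      rw [Nat.cast_sum]
      refine Finset.sum_le_sum fun v hv => ?_
      rw [Finset.mem_Icc] at hv
      have h3 := hC ⌊B⌋₊ hb v hv.1 hv.2
      rw [Set.ncard_eq_toFinset_card _ (hfin v)] at h3
      calc ((((hfin v).toFinset).image (fun u : ℤ => (u : ℚ) / v)).card : ℝ) ≤
            ((hfin v).toFinset.card : ℝ) := by exact_mod_cast Finset.card_image_le
        _ ≤ C * Real.sqrt ⌊B⌋₊ := h3
        _ ≤ max C 0 * Real.sqrt B :=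
            mul_le_mul (le_max_left _ _) (Real.sqrt_le_sqrt hbB) (Real.sqrt_nonneg _)
              (le_max_right _ _)
    rw [Finset.sum_const, Nat.card_Icc, nsmul_eq_mul, Nat.add_sub_cancel] at h1
    refine h1.trans ?_
    have h4 : B ^ (3 / 2 : ℝ) = B * Real.sqrt B := by
      rw [Real.sqrt_eq_rpow, ← Real.rpow_one_add' (by linarith) (by norm_num)]
      norm_num
    rw [h4]
    calc (⌊B⌋₊ : ℝ) * (max C 0 * Real.sqrt B) ≤ B * (max C 0 * Real.sqrt B) :=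
          mul_le_mul_of_nonneg_right hbB (mul_nonneg (le_max_right _ _) (Real.sqrt_nonneg _))
      _ = max C 0 * (B * Real.sqrt B) := by ring
  refine ⟨T.finite_toSet.subset hsub, ?_⟩
  calc (({t : ℚ | (ht t : ℝ) ≤ B ∧ ¬ P (t : ℂ)}.ncard : ℕ) : ℝ) ≤ (T.card : ℝ) := by
        have := Set.ncard_le_ncard hsub T.finite_toSet
        rw [Set.ncard_coe_finset] at this
        exact_mod_cast this
    _ ≤ max C 0 * B ^ (3 / 2 : ℝ) := hcard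
    _ ≤ max C 0 * B ^ ((3 / 2 : ℝ) + δ) :=
        mul_le_mul_of_nonneg_left (Real.rpow_le_rpow_of_exponent_le hB (by linarith))
          (le_max_right _ _)

theorem counted_int (h : Count P) :
    Counted (fun B : ℝ => {u : ℤ | ((max 1 u.natAbs : ℕ) : ℝ) ≤ B ∧ ¬ P (u : ℂ)})
      (1 / 2) := by
  obtain ⟨C, hC⟩ := h
  intro δ hδ
  refine ⟨max C 0, fun B hB => ?_⟩
  have hb : 1 ≤ ⌊B⌋₊ := Nat.le_floor (by simpa using hB)
  have hbB : (⌊B⌋₊ : ℝ) ≤ B := Nat.floor_le (by linarith)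
  have hfin : {u : ℤ | |u| ≤ ⌊B⌋₊ ∧ IsCoprime u ((1 : ℕ) : ℤ) ∧
      ¬ P ((u : ℂ) / (1 : ℕ))}.Finite := by
    refine (Set.finite_Icc (-(⌊B⌋₊ : ℤ)) ⌊B⌋₊).subset ?_
    rintro u ⟨hu, -⟩
    exact ⟨(abs_le.1 hu).1, (abs_le.1 hu).2⟩
  have hsub : {u : ℤ | ((max 1 u.natAbs : ℕ) : ℝ) ≤ B ∧ ¬ P (u : ℂ)} ⊆
      {u : ℤ | |u| ≤ ⌊B⌋₊ ∧ IsCoprime u ((1 : ℕ) : ℤ) ∧ ¬ P ((u : ℂ) / (1 : ℕ))} := by
    rintro u ⟨h1, h2⟩
    have h3 : max 1 u.natAbs ≤ ⌊B⌋₊ := Nat.le_floor h1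
    have h4 : u.natAbs ≤ ⌊B⌋₊ := (le_max_right _ _).trans h3
    refine ⟨?_, ?_, ?_⟩
    · rw [Int.abs_eq_natAbs]
      exact_mod_cast h4
    · rw [Nat.cast_one]
      exact isCoprime_one_right
    · rwa [Nat.cast_one, div_one]
  refine ⟨hfin.subset hsub, ?_⟩
  have h5 : (({u : ℤ | ((max 1 u.natAbs : ℕ) : ℝ) ≤ B ∧ ¬ P (u : ℂ)}.ncard : ℕ) : ℝ) ≤
      ({u : ℤ | |u| ≤ ⌊B⌋₊ ∧ IsCoprime u ((1 : ℕ) : ℤ) ∧ ¬ P ((u : ℂ) / (1 : ℕ))}.ncard :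
        ℝ) := by exact_mod_cast Set.ncard_le_ncard hsub hfin
  refine h5.trans ((hC ⌊B⌋₊ hb 1 le_rfl hb).trans ?_)
  calc C * Real.sqrt ⌊B⌋₊ ≤ max C 0 * Real.sqrt B :=
        mul_le_mul (le_max_left _ _) (Real.sqrt_le_sqrt hbB) (Real.sqrt_nonneg _)
          (le_max_right _ _)
    _ = max C 0 * B ^ (1 / 2 : ℝ) := by rw [Real.sqrt_eq_rpow]
    _ ≤ max C 0 * B ^ ((1 / 2 : ℝ) + δ) :=
        mul_le_mul_of_nonneg_left (Real.rpow_le_rpow_of_exponent_le hB (by linarith))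
          (le_max_right _ _)

/-- from heights to `Close` -/
theorem sub_close {K E : Type} [MetricSpace E] {H : K → ℕ} (h1 : ∀ t, 1 ≤ H t) {Q : K → Prop}
    (φ : K → E) (ξ : E) (τ M : ℝ) :
    {t | dist (φ t) ξ ≤ M * (H t : ℝ) ^ (-τ) ∧ ¬ Q t} ⊆
      Close (fun B : ℝ => {t | (H t : ℝ) ≤ B ∧ ¬ Q t}) φ ξ τ M := by
  rintro t ⟨h2, h3⟩
  have h4 : (0 : ℝ) < H t := by exact_mod_cast h1 t
  refine ⟨Real.log (H t), ⟨by rw [Real.exp_log h4], h3⟩, ?_⟩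
  rw [Real.rpow_def_of_pos h4] at h2
  refine h2.trans (le_of_eq ?_)
  congr 2
  ring

theorem mono {K : Type} (H : K → ℕ) (Q : K → Prop) (B B' : ℝ) (h : B ≤ B') :
    {t | (H t : ℝ) ≤ B ∧ ¬ Q t} ⊆ {t | (H t : ℝ) ≤ B' ∧ ¬ Q t} := fun _ ht => ⟨ht.1.trans h, ht.2⟩

theorem main (hcount : Count P) (τ : ℝ) (hτ : 0 < τ) :
    (∃ Z : Set ℝ, dimH Z ≤ ENNReal.ofReal (3 / (2 * τ)) ∧ ∀ ξ : ℝ, ξ ∉ Z → ∀ M : ℝ,
      {t : ℚ | |ξ - t| ≤ M * (t.den : ℝ) ^ (-τ) ∧ ¬ P (t : ℂ)}.Finite) ∧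
    (∀ (E : Type) [MetricSpace E] (φ : ℚ → E),
      ∃ Z : Set E, dimH Z ≤ ENNReal.ofReal (3 / (2 * τ)) ∧ ∀ ξ : E, ξ ∉ Z → ∀ M : ℝ,
        {t : ℚ | dist (φ t) ξ ≤ M * (ht t : ℝ) ^ (-τ) ∧ ¬ P (t : ℂ)}.Finite) ∧
    ∀ (E : Type) [MetricSpace E] (φ : ℤ → E),
      ∃ Z : Set E, dimH Z ≤ ENNReal.ofReal (1 / (2 * τ)) ∧ ∀ ξ : E, ξ ∉ Z → ∀ M : ℝ,
        {u : ℤ | dist (φ u) ξ ≤ M * ((max 1 u.natAbs : ℕ) : ℝ) ^ (-τ) ∧
          ¬ P (u : ℂ)}.Finite := by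
  have hB : ∀ (E : Type) [MetricSpace E] (φ : ℚ → E),
      ∃ Z : Set E, dimH Z ≤ ENNReal.ofReal (3 / (2 * τ)) ∧ ∀ ξ : E, ξ ∉ Z → ∀ M : ℝ,
        {t : ℚ | dist (φ t) ξ ≤ M * (ht t : ℝ) ^ (-τ) ∧ ¬ P (t : ℂ)}.Finite := by
    intro E _ φ
    obtain ⟨Z, hZ, h⟩ := family_dim _ (mono ht fun t : ℚ => P (t : ℂ))
      (by norm_num : (0 : ℝ) ≤ 3 / 2) hτ (counted_rat hcount) φ
    refine ⟨Z, ?_, fun ξ hξ M => (h ξ hξ M).subset (sub_close one_le_ht φ ξ τ M)⟩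
    rwa [div_div] at hZ
  refine ⟨?_, hB, ?_⟩
  · obtain ⟨Z, hZ, h⟩ := hB ℝ (fun t : ℚ => (t : ℝ))
    refine ⟨Z, hZ, fun ξ hξ M => ?_⟩
    refine (h ξ hξ (|M| * (|ξ| + |M| + 1) ^ τ)).subset ?_
    rintro t ⟨h1, h2⟩
    refine ⟨?_, h2⟩
    have hd1 : (1 : ℝ) ≤ t.den := by exact_mod_cast t.pos
    have hd0 : (0 : ℝ) < t.den := by linarith
    have h3 : |ξ - t| ≤ |M| := by
      refine h1.trans ?_
      have h4 : (t.den : ℝ) ^ (-τ) ≤ 1 := Real.rpow_le_one_of_one_le_of_nonpos hd1 (by linarith)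
      have h5 : 0 ≤ (t.den : ℝ) ^ (-τ) := by positivity
      calc M * (t.den : ℝ) ^ (-τ) ≤ |M| * (t.den : ℝ) ^ (-τ) :=
            mul_le_mul_of_nonneg_right (le_abs_self M) h5
        _ ≤ |M| * 1 := mul_le_mul_of_nonneg_left h4 (abs_nonneg M)
        _ = |M| := mul_one _
    have h6 : |(t : ℝ)| ≤ |ξ| + |M| := by
      have h7 : |(t : ℝ)| ≤ |ξ| + |ξ - t| := by
        have h8 : (t : ℝ) = ξ - (ξ - t) := by ring
        calc |(t : ℝ)| = |ξ - (ξ - t)| := by rw [← h8]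
          _ ≤ |ξ| + |ξ - t| := abs_sub _ _
      linarith
    have h9 : (ht t : ℝ) ≤ (|ξ| + |M| + 1) * t.den := by
      unfold ht
      rw [Nat.cast_max]
      refine max_le ?_ ?_
      · have h10 : ((t.num.natAbs : ℕ) : ℝ) = |(t : ℝ)| * t.den := by
          rw [Nat.cast_natAbs, Int.cast_abs]
          have h11 : (t.num : ℝ) = (t : ℝ) * t.den := by
            rw [Rat.cast_def]
            field_simp
          rw [h11, abs_mul, abs_of_pos hd0]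
        rw [h10]
        exact mul_le_mul_of_nonneg_right (by linarith) hd0.le
      · have := abs_nonneg ξ
        have := abs_nonneg M
        nlinarith
    have hc0 : 0 < |ξ| + |M| + 1 := by
      have := abs_nonneg ξ
      have := abs_nonneg M
      linarith
    have hht : (0 : ℝ) < ht t := by exact_mod_cast one_le_ht t
    have h12 : (t.den : ℝ) ^ (-τ) ≤ (|ξ| + |M| + 1) ^ τ * (ht t : ℝ) ^ (-τ) := by
      have h13 : ((|ξ| + |M| + 1) * t.den) ^ (-τ) ≤ (ht t : ℝ) ^ (-τ) :=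
        Real.rpow_le_rpow_of_nonpos hht h9 (by linarith)
      have h14 : (t.den : ℝ) ^ (-τ) =
          (|ξ| + |M| + 1) ^ τ * ((|ξ| + |M| + 1) * t.den) ^ (-τ) := by
        rw [Real.mul_rpow hc0.le hd0.le, ← mul_assoc, ← Real.rpow_add hc0, add_neg_cancel,
          Real.rpow_zero, one_mul]
      rw [h14]
      exact mul_le_mul_of_nonneg_left h13 (by positivity)
    rw [dist_comm, Real.dist_eq]
    calc |ξ - t| ≤ M * (t.den : ℝ) ^ (-τ) := h1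
      _ ≤ |M| * (t.den : ℝ) ^ (-τ) := mul_le_mul_of_nonneg_right (le_abs_self M) (by positivity)
      _ ≤ |M| * ((|ξ| + |M| + 1) ^ τ * (ht t : ℝ) ^ (-τ)) :=
          mul_le_mul_of_nonneg_left h12 (abs_nonneg M)
      _ = |M| * (|ξ| + |M| + 1) ^ τ * (ht t : ℝ) ^ (-τ) := by ring
  · intro E _ φ
    obtain ⟨Z, hZ, h⟩ := family_dim _
      (mono (fun u : ℤ => max 1 u.natAbs) fun u : ℤ => P (u : ℂ))
      (by norm_num : (0 : ℝ) ≤ 1 / 2) hτ (counted_int hcount) φ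
    refine ⟨Z, ?_, fun ξ hξ M => (h ξ hξ M).subset (sub_close (fun u => le_max_left _ _) φ ξ τ M)⟩
    rwa [div_div] at hZ

end Pool.Agent.E8helper38.NP
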